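import Pool.Agent.PST.StmtsET3

/-!
# PST ET CRG: the first order datum of a corner
-/

set_option autoImplicit false

open scoped BigOperators TensorProduct

noncomputable section

namespace Pool.Agent.PST.ET.H83

open Pool.Agent.PFD.D2 (Cdv FibG)

section

variable {R F V D H Y Ys : Type} [CommRing R] [Field F] [CommGroup V]
  [Fintype V] [Ring D] [Algebra R D] [Ring H] [Algebra F H] [Ring Y]
  [Algebra F Y] [Ring Ys] [Algebra R Ys]

theorem q_pi {A' A : Type} [Ring A'] [Algebra R A'] [Ring A] [Algebra F A] {c : Cdv R F}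
    (f : FibG A' A c) (x : A') : f.q (c.π • x) = 0 := by
  have h0 : c.κ c.π = 0 := (c.ker c.π).2 ⟨1, (mul_one _).symm⟩
  rw [Algebra.smul_def, map_mul, f.sc, h0, map_zero, zero_mul]

omit [Fintype V] in
/-- the compression to a corner maps the commutators with `V` to the commutators with `V` -/
theorem iv_map (α : V →* H) (αY : V →* Y) (p : H) (κ : Y →ₗ[F] H) (hp : p * p = p)
    (hκ : CrR p κ) (hα : ∀ v, α v * p = p * α v) (hαY : ∀ v, κ (αY v) = α v * p) :
    ∀ x ∈ IV F α, ∀ y, κ y = p * x * p → y ∈ IV F αY := by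
  have key : ∀ x ∈ IV F α, ∃ y ∈ IV F αY, κ y = p * x * p := by
    intro x hx
    unfold IV at hx
    induction hx using Submodule.span_induction with
    | mem x hx =>
      obtain ⟨u, b, rfl⟩ := hx
      obtain ⟨b', hb'⟩ := hκ.ran (p * b * p) (by simp only [← mul_assoc, hp])
        (by rw [mul_assoc, hp])
      refine ⟨αY u * b' - b' * αY u, Submodule.subset_span ⟨u, b', rfl⟩, ?_⟩
      rw [map_sub, hκ.mul, hκ.mul, hb', hαY, mul_sub, sub_mul]
      have e1 : α u * p * (p * b * p) = p * (α u * b) * p := by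
        calc α u * p * (p * b * p) = α u * (p * p) * b * p := by simp only [mul_assoc]
          _ = (α u * p) * b * p := by rw [hp]
          _ = p * (α u * b) * p := by rw [hα]; simp only [mul_assoc]
      have e2 : p * b * p * (α u * p) = p * (b * α u) * p := by
        calc p * b * p * (α u * p) = p * b * (p * α u) * p := by simp only [mul_assoc]
          _ = p * b * (α u * p) * p := by rw [hα]
          _ = p * b * α u * (p * p) := by simp only [mul_assoc]
          _ = p * (b * α u) * p := by rw [hp]; simp only [mul_assoc]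
      rw [e1, e2]
    | zero => exact ⟨0, Submodule.zero_mem _, by simp⟩
    | add x y _ _ hx hy =>
      obtain ⟨x', h1, h2⟩ := hx
      obtain ⟨y', h3, h4⟩ := hy
      exact ⟨x' + y', Submodule.add_mem _ h1 h3, by rw [map_add, h2, h4, mul_add, add_mul]⟩
    | smul a x _ hx =>
      obtain ⟨x', h1, h2⟩ := hx
      exact ⟨a • x', Submodule.smul_mem _ _ h1, by rw [map_smul, h2, mul_smul_comm,
        smul_mul_assoc]⟩
  intro x hx y hy
  obtain ⟨y', h1, h2⟩ := key x hx
  rwa [hκ.inj (hy.trans h2.symm)]

theorem crg (hT : TorStmt) : CrgStmt := by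
  intro ℓ r hℓ R F V D H Y Ys _ _ _ _ _ _ _ _ _ _ _ _ _ c f fY α αY P κ κs lam xx t hP hκ hκs
    hc hα hαY hR
  have htor : ∀ x : D, c.π • x = 0 → x = 0 := by
    intro x hx
    refine (hT R F D c).1 1 x ?_
    rw [pow_one]
    exact hx
  have hp : f.q P * f.q P = f.q P := by rw [← map_mul, hP]
  have hIV := iv_map α αY (f.q P) κ hp hκ hα hαY
  -- the compression
  have hτ : ∀ a : D, ∃ b : Ys, κs b = P * a * P := fun a =>
    hκs.ran (P * a * P) (by simp only [← mul_assoc, hP]) (by rw [mul_assoc, hP])
  choose τ hτ using hτ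
  have hPP : ∀ a : D, P * (P * a * P) * P = P * a * P := by
    intro a
    calc P * (P * a * P) * P = (P * P) * a * (P * P) := by simp only [mul_assoc]
      _ = P * a * P := by rw [hP]
  have hcomm : ∀ (w : D) (v : V), f.q w = α v → ∃ s : D, w * P - P * w = c.π • s ∧
      P * s * P = 0 := by
    intro w v hw
    obtain ⟨s, hs⟩ := f.ker (w * P - P * w) (by rw [map_sub, map_mul, map_mul, hw, hα, sub_self])
    refine ⟨s, hs, htor _ ?_⟩
    rw [← smul_mul_assoc, ← mul_smul_comm, ← hs, mul_sub, sub_mul]
    have e1 : P * (w * P) * P = P * w * P := by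
      calc P * (w * P) * P = P * w * (P * P) := by simp only [mul_assoc]
        _ = P * w * P := by rw [hP]
    have e2 : P * (P * w) * P = P * w * P := by rw [← mul_assoc, hP]
    rw [e1, e2, sub_self]
  -- `P a s P` is divisible by `π` if `q a = h` commutes with `q P` and `P s P = 0`
  have hdiv : ∀ (a s : D), f.q a * f.q P = f.q P * f.q a → P * s * P = 0 →
      ∃ s', P * (a * s) * P = c.π • s' := by
    intro a s ha hs
    refine f.ker _ ?_
    have : f.q (P * (a * s) * P) = f.q a * f.q (P * s * P) := by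
      simp only [map_mul]
      calc f.q P * (f.q a * f.q s) * f.q P = (f.q P * f.q a) * f.q s * f.q P := by
            simp only [mul_assoc]
        _ = (f.q a * f.q P) * f.q s * f.q P := by rw [ha]
        _ = f.q a * (f.q P * f.q s * f.q P) := by simp only [mul_assoc]
    rw [this, hs, map_zero, mul_zero]
  have hprod : ∀ (a b s : D), b * P - P * b = c.π • s →
      P * a * P * (P * b * P) = P * (a * b) * P - c.π • (P * (a * s) * P) := by
    intro a b s hs
    have e3 : P * b = b * P - c.π • s := by rw [← hs]; abel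
    calc P * a * P * (P * b * P) = P * a * ((P * P) * b) * P := by simp only [mul_assoc]
      _ = P * a * (P * b) * P := by rw [hP]
      _ = P * a * (b * P - c.π • s) * P := by rw [e3]
      _ = P * a * (b * P) * P - c.π • (P * a * s * P) := by
          rw [mul_sub, sub_mul, mul_smul_comm, smul_mul_assoc]
      _ = P * (a * b) * (P * P) - c.π • (P * (a * s) * P) := by simp only [mul_assoc]
      _ = P * (a * b) * P - c.π • (P * (a * s) * P) := by rw [hP]
  refine ⟨?_, ?_⟩
  · intro v
    obtain ⟨w, G, hw, hwℓ, hG⟩ := hR.pw v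
    obtain ⟨s, hs, hPs⟩ := hcomm w v hw
    have hwn : ∀ n, f.q (w ^ n) * f.q P = f.q P * f.q (w ^ n) := by
      intro n
      rw [map_pow, hw]
      exact (Commute.pow_left (hα v) n)
    have hpow : ∀ n : ℕ, ∃ e, (P * w * P) ^ (n + 1) = P * w ^ (n + 1) * P + c.π • c.π • e := by
      intro n
      induction n with
      | zero => exact ⟨0, by simp⟩
      | succ n ih =>
        obtain ⟨e, he⟩ := ih
        obtain ⟨s', hs'⟩ := hdiv (w ^ (n + 1)) s (hwn _) hPs
        refine ⟨e * (P * w * P) - s', ?_⟩
        rw [pow_succ, he, add_mul, hprod _ w s hs, hs', smul_mul_assoc, smul_mul_assoc,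
          ← pow_succ, smul_sub, smul_sub]
        abel
    obtain ⟨e, he⟩ := hpow (ℓ - 1)
    have hℓ1 : ℓ - 1 + 1 = ℓ := Nat.sub_add_cancel hℓ.out.one_lt.le
    rw [hℓ1] at he
    have hκpow : ∀ n : ℕ, κs (τ w ^ (n + 1)) = (P * w * P) ^ (n + 1) := by
      intro n
      induction n with
      | zero => simp [hτ]
      | succ n ih => rw [pow_succ, hκs.mul, ih, hτ, ← pow_succ]
    have h1 := hκpow (ℓ - 1)
    rw [hℓ1] at h1
    have he2 : (P * w * P) ^ ℓ = P + c.π • (P * G * P) + c.π • c.π • (P * e * P) := by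
      have h2 : P * (P * w * P) ^ ℓ * P = (P * w * P) ^ ℓ := by
        rw [← hℓ1]
        have h3 : P * (P * w * P) = P * w * P := by simp only [← mul_assoc, hP]
        have h4 : P * w * P * P = P * w * P := by rw [mul_assoc, hP]
        rw [pow_succ', ← mul_assoc, h3, ← pow_succ', pow_succ, mul_assoc, h4, ← pow_succ]
      rw [← h2, he, hwℓ]
      simp only [mul_add, add_mul, mul_one, mul_smul_comm, smul_mul_assoc, hP]
      rw [hPP]
    refine ⟨τ w, τ G + c.π • τ e, ?_, ?_, ?_⟩
    · apply hκ.inj
      rw [hc, hτ, hαY, map_mul, map_mul, hw, ← hα, mul_assoc, hp]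
    · apply hκs.inj
      rw [h1, he2, map_add, hκs.one, map_smul, map_add, map_smul, hτ, hτ, smul_add, add_assoc]
    · refine hIV _ hG _ ?_
      rw [map_add, q_pi, add_zero, map_sub, hc, hτ, map_sum, mul_sub, sub_mul, Finset.mul_sum,
        Finset.sum_mul, map_mul, map_mul]
      congr 1
      refine Finset.sum_congr rfl fun u _ => ?_
      rw [map_smul, hαY, mul_smul_comm, smul_mul_assoc, ← hα, mul_assoc, hp]
  · intro u v
    obtain ⟨a, b, d, ha, hb, hab, hd⟩ := hR.cm u v
    obtain ⟨ra, hra, hPra⟩ := hcomm a u ha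
    obtain ⟨rb, hrb, hPrb⟩ := hcomm b v hb
    obtain ⟨sa, hsa⟩ := hdiv a rb (by rw [ha, hα]) hPrb
    obtain ⟨sb, hsb⟩ := hdiv b ra (by rw [hb, hα]) hPra
    have hq : ∀ (a : D) (u : V), f.q a = α u → fY.q (τ a) = αY u := by
      intro a u ha
      apply hκ.inj
      rw [hc, hτ, hαY, map_mul, map_mul, ha, ← hα, mul_assoc, hp]
    refine ⟨τ a, τ b, τ d - c.π • τ (sa - sb), hq a u ha, hq b v hb, ?_, ?_⟩
    · apply hκs.inj
      rw [map_sub, hκs.mul, hκs.mul, map_smul, map_sub, map_smul]
      simp only [hτ]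
      have e1 := hprod a b rb hrb
      have e2 := hprod b a ra hra
      have e3 : P * a * P * (P * b * P) - P * b * P * (P * a * P) =
          c.π • (P * d * P) - c.π • c.π • (sa - sb) := by
        rw [e1, e2, hsa, hsb]
        have e4 : P * (a * b) * P - P * (b * a) * P = c.π • (P * d * P) := by
          rw [← sub_mul, ← mul_sub, hab, mul_smul_comm, smul_mul_assoc]
        rw [← e4, smul_sub, smul_sub]
        abel
      have e5 : P * (P * a * P * (P * b * P) - P * b * P * (P * a * P)) * P =
          P * a * P * (P * b * P) - P * b * P * (P * a * P) := by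
        have h3 : ∀ x : D, P * (P * x) = P * x := fun x => by rw [← mul_assoc, hP]
        have h4 : ∀ x : D, x * P * P = x * P := fun x => by rw [mul_assoc, hP]
        simp only [mul_sub, sub_mul, mul_assoc, h3, hP]
      rw [← e5, e3, mul_sub, sub_mul, smul_sub c.π (P * d * P)]
      simp only [mul_smul_comm, smul_mul_assoc, hPP]
    · refine hIV _ hd _ ?_
      rw [map_sub, q_pi, sub_zero, hc, hτ, map_mul, map_mul]

end

end Pool.Agent.PST.ET.H83
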