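import Pool.Agent.PST.StmtsET2

/-!
# PST ET SUB: the commutative subalgebra `S`
-/

set_option autoImplicit false

open scoped BigOperators TensorProduct

noncomputable section

namespace Pool.Agent.PST.ET.H83

open Pool.Agent.PFD.D2 (Cdv FibG)

/-- a commutative subalgebra as an abstract commutative algebra -/
theorem comm_sub {R D : Type} [CommRing R] [Ring D] [Algebra R D] (A : Subalgebra R D)
    (h : ∀ a ∈ A, ∀ b ∈ A, a * b = b * a) :
    ∃ (S : Type) (_ : CommRing S) (_ : Algebra R S) (i : S →ₐ[R] D),
      Function.Injective i ∧ ∀ x, x ∈ A ↔ ∃ s, i s = x := by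
  let _ : CommRing A := { A.toRing with
    mul_comm := fun a b => Subtype.ext (h a.1 a.2 b.1 b.2) }
  refine ⟨A, inferInstance, A.algebra, A.val, Subtype.val_injective, fun x => ?_⟩
  exact ⟨fun hx => ⟨⟨x, hx⟩, rfl⟩, fun ⟨s, hs⟩ => hs ▸ s.2⟩

theorem sub (hSEX : SexStmt) (hPWS : PwsStmt) (hCOM : ComStmt) (hRLI : RliStmt) : SubStmt := by
  intro ℓ r hℓ R F V H Hs _ _ _ _ _ _ _ _ _ _ _ _ _ _ _ c f α lam' lam xx t hV hE hR hP hTr
  obtain ⟨σ0, h1, hq, hN⟩ := hSEX R F V H Hs c f α lam' hP hTr
  obtain ⟨hpw, hcm⟩ := hPWS ℓ r R F V H Hs c f α lam' lam xx t σ0 hV hR hP h1 hq hN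
  have hcomm := hCOM ℓ r R F V H Hs c f α lam' lam xx t σ0 hV hE hP h1 hq hN hpw hcm
  obtain ⟨-, hli, hpure⟩ := hRLI R F V H Hs c f α lam' σ0 hP hq
  let A : Subalgebra R Hs := Algebra.adjoin R (Set.range σ0)
  have hA : ∀ x, x ∈ A ↔ x ∈ Submodule.span R (Set.range σ0) := by
    intro x
    constructor
    · intro hx
      induction hx using Algebra.adjoin_induction with
      | mem x hx => exact Submodule.subset_span hx
      | algebraMap a =>
        rw [Algebra.algebraMap_eq_smul_one, ← h1]
        exact Submodule.smul_mem _ _ (Submodule.subset_span ⟨1, rfl⟩)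
      | add x y _ _ hx hy => exact Submodule.add_mem _ hx hy
      | mul x y _ _ hx hy =>
        have h2 : ∀ a ∈ Submodule.span R (Set.range σ0), ∀ b ∈ Submodule.span R (Set.range σ0),
            a * b ∈ Submodule.span R (Set.range σ0) := by
          intro a ha b hb
          induction ha using Submodule.span_induction with
          | mem a ha =>
            obtain ⟨u, rfl⟩ := ha
            induction hb using Submodule.span_induction with
            | mem b hb =>
              obtain ⟨v, rfl⟩ := hb
              exact hN u v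
            | zero => rw [mul_zero]; exact Submodule.zero_mem _
            | add b b' _ _ hb hb' => rw [mul_add]; exact Submodule.add_mem _ hb hb'
            | smul k b _ hb => rw [mul_smul_comm]; exact Submodule.smul_mem _ _ hb
          | zero => rw [zero_mul]; exact Submodule.zero_mem _
          | add a a' _ _ ha ha' => rw [add_mul]; exact Submodule.add_mem _ ha ha'
          | smul k a _ ha => rw [smul_mul_assoc]; exact Submodule.smul_mem _ _ ha
        exact h2 x hx y hy
    · intro hx
      exact Algebra.span_le_adjoin R _ hx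
  have hAc : ∀ a ∈ A, ∀ b ∈ A, a * b = b * a := by
    intro a ha b hb
    have hs : ∀ x ∈ Set.range σ0, ∀ y ∈ Set.range σ0, x * y = y * x := by
      rintro _ ⟨u, rfl⟩ _ ⟨v, rfl⟩
      exact hcomm u v
    have h3 : ∀ b ∈ Submodule.span R (Set.range σ0), ∀ u, σ0 u * b = b * σ0 u := by
      intro b hb u
      induction hb using Submodule.span_induction with
      | mem b hb =>
        obtain ⟨v, rfl⟩ := hb
        exact hcomm u v
      | zero => rw [zero_mul, mul_zero]
      | add b b' _ _ hb hb' => rw [mul_add, add_mul, hb, hb']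
      | smul k b _ hb => rw [mul_smul_comm, smul_mul_assoc, hb]
    have ha' := (hA a).1 ha
    have hb' := (hA b).1 hb
    clear ha
    induction ha' using Submodule.span_induction with
    | mem a ha =>
      obtain ⟨v, rfl⟩ := ha
      exact h3 b hb' v
    | zero => rw [zero_mul, mul_zero]
    | add a a' _ _ ha ha' => rw [mul_add, add_mul, ha, ha']
    | smul k a _ ha => rw [mul_smul_comm, smul_mul_assoc, ha]
  obtain ⟨S, iS, jS, i, hi, hiA⟩ := comm_sub A hAc
  have hex : ∀ x ∈ Submodule.span R (Set.range σ0), ∃ s, i s = x := fun x hx =>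
    (hiA x).1 ((hA x).2 hx)
  have hσ : ∀ v, ∃ s, i s = σ0 v := fun v => hex _ (Submodule.subset_span ⟨v, rfl⟩)
  choose σ hσ using hσ
  have hlin : LinearIndependent R σ := by
    rw [Fintype.linearIndependent_iff]
    intro g hg v
    have h4 : ∑ v, g v • σ0 v = 0 := by
      have := congrArg i hg
      rw [map_sum, map_zero] at this
      rw [← this]
      exact Finset.sum_congr rfl fun v _ => by rw [map_smul, hσ]
    exact congrFun (hli g h4) v
  have hspan : ⊤ ≤ Submodule.span R (Set.range σ) := by
    intro s _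
    have h5 : i s ∈ Submodule.span R (Set.range σ0) := (hA _).1 ((hiA _).2 ⟨s, rfl⟩)
    have h6 : Submodule.span R (Set.range σ0) = (Submodule.span R (Set.range σ)).map
        i.toLinearMap := by
      rw [Submodule.map_span, ← Set.range_comp]
      congr 2
      funext v
      exact (hσ v).symm
    rw [h6] at h5
    obtain ⟨s', hs', h7⟩ := h5
    rw [← hi h7]
    exact hs'
  let b := Module.Basis.mk hlin hspan
  have hb : ∀ v, b v = σ v := fun v => Module.Basis.mk_apply hlin hspan v
  have hb1 : ∀ s, ∑ v, b.coord v s • σ v = s := by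
    intro s
    have := b.sum_repr s
    simp_rw [hb] at this
    exact this
  have hσ1 : σ 1 = 1 := hi (by rw [hσ, h1, map_one])
  refine ⟨S, iS, jS, i, σ, fun v => b.coord v, hi, fun v => by rw [hσ, hq], ⟨hb1, ?_, hσ1, ?_⟩,
    ?_⟩
  · intro u v
    rw [← hb v, Module.Basis.coord_apply, Module.Basis.repr_self, Finsupp.single_apply]
    by_cases h : u = v
    · simp [h]
    · simp [h, Ne.symm h]
  · intro u v
    obtain ⟨d, hd⟩ := f.ker (σ0 u * σ0 v - σ0 (u * v)) (by
      rw [map_sub, map_mul, hq, hq, hq, map_mul, sub_self])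
    have h8 : d ∈ Submodule.span R (Set.range σ0) := by
      apply hpure
      rw [← hd]
      exact Submodule.sub_mem _ (hN u v) (Submodule.subset_span ⟨_, rfl⟩)
    obtain ⟨d', rfl⟩ := hex d h8
    refine ⟨d', hi ?_⟩
    rw [map_mul, map_add, map_smul, hσ, hσ, hσ, ← hd]
    abel
  · intro v
    obtain ⟨g0, hg0, hg1, hg2⟩ := hpw v
    obtain ⟨g, rfl⟩ := hex g0 hg0
    refine ⟨g, hi ?_, fun u => ?_⟩
    · rw [map_pow, map_add, map_smul, map_one, hσ, hg1]
    · have h9 : f.q (i g) = ∑ u, c.κ (b.coord u g) • α u := by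
        conv_lhs => rw [← hb1 g]
        rw [map_sum, map_sum]
        refine Finset.sum_congr rfl fun u _ => ?_
        rw [map_smul, hσ, Algebra.smul_def, map_mul, f.sc, hq, ← Algebra.smul_def]
      have h10 : ∀ k : V → F, lam' (α u⁻¹ * ∑ w, k w • α w) = k u := by
        intro k
        rw [Finset.mul_sum, map_sum, Finset.sum_eq_single u]
        · rw [mul_smul_comm, ← map_mul, map_smul, inv_mul_cancel, hP.del, if_pos rfl,
            smul_eq_mul, mul_one]
        · intro w _ hw
          rw [mul_smul_comm, ← map_mul, map_smul, hP.del, if_neg, smul_zero]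
          intro h
          exact hw (inv_mul_eq_one.1 h).symm
        · intro h
          exact absurd (Finset.mem_univ u) h
      rw [← h10 (fun u => c.κ (b.coord u g)), ← h9, hg2, h10]

end Pool.Agent.PST.ET.H83
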